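import Pool.Agent.Helper13EV.Stm
import Pool.Agent.Hx18.MD.Van
import Pool.Agent.Hx18.CI.Main

/-!
# The Bloch-Beilinson filtration on motives generated by even-dimensional complete intersections
-/

set_option autoImplicit false

open CategoryTheory AlgebraicGeometry

universe u v w

namespace Pool.Agent.Helper13EV

open Pool.Agent.H914 Pool.Agent.H914.VarClass Pool.Agent.H914.VarClass.Obj Pool.Agent.W492.BB
  Pool.Agent.W550.Corr Pool.Agent.TH133 Pool.Agent.Y148.BB Pool.Agent.Hx18.BB Pool.Agent.Hx18.CI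

set_option linter.unusedSectionVars false
set_option linter.unusedVariables false

variable {k : Type u} [Field k] {𝒱 : VarClass k}

variable {C : TheoryData.{u, v, 0} 𝒱 ℚ} [hC : IsChowProj C] {K : Type w} [Field K]
  {H : WeilTheoryData.{u, v, w} C K} [hH : IsWeilProj H] {X Y Z W T P R V S : 𝒱.Obj}
  {Q : ∀ V : 𝒱.Obj, C.A (V.prod V) → Prop} {N : Family C}
  {D J E : ℕ∞}

/-- Left-nested products of blocks of even dimension. -/
inductive EPart (Q : ∀ V : 𝒱.Obj, C.A (V.prod V) → Prop) :
    ℕ → (P : 𝒱.Obj) → C.A (P.prod P) → Prop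
  | block (T : 𝒱.Obj) (r : C.A (T.prod T)) (h : Q T r) (he : T.dim % 2 = 0) : EPart Q T.dim T r
  | prod (n : ℕ) (P T : 𝒱.Obj) (p : C.A (P.prod P)) (r : C.A (T.prod T)) (hp : EPart Q n P p)
      (hr : Q T r) (he : T.dim % 2 = 0) : EPart Q (n + T.dim) (P.prod T) (TH133.tens C p r)

omit hC in
lemma EPart.part {n : ℕ} {p : C.A (P.prod P)} (h : EPart Q n P p) : Part Q n P p := by
  induction h with
  | block T r hr _ => exact Part.piece T r (Or.inl hr)
  | prod n P T p r hp hr _ ih => exact Part.prod n P T p r ih (Or.inl hr)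

omit hC in
lemma EPart.even {n : ℕ} {p : C.A (P.prod P)} (h : EPart Q n P p) : n % 2 = 0 := by
  induction h with
  | block T r _ he => exact he
  | prod n P T p r hp _ he ih => omega

omit hC in
lemma primitive_of_epart {n : ℕ} {p : C.A (P.prod P)} (h : EPart Q n P p) :
    IsEvenPrimitive Q P p ∧ P.dim = n := by
  induction h with
  | block T r hr he => exact ⟨IsEvenPrimitive.block T r hr he, rfl⟩
  | prod n P T p r hp hr he ih =>
    exact ⟨IsEvenPrimitive.prod P T p r ih.1 (IsEvenPrimitive.block T r hr he), by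
      rw [dim_prod, ih.2]⟩

omit hC in
lemma product_of_primitive {p : C.A (P.prod P)} (h : IsEvenPrimitive Q P p) :
    IsEvenProduct Q P := by
  induction h with
  | block T r hr he => exact IsEvenProduct.block T r hr he
  | prod P R p r hp hr ih ih' => exact IsEvenProduct.prod P R ih ih'

include hC hH

lemma pure_of_primitive (hQ : ∀ V q, Q V q → IsBlock H Q V q) {p : C.A (P.prod P)}
    (h : IsEvenPrimitive Q P p) : IsPure H P.dim P p := by
  induction h with
  | block T r hr _ => exact isPure_piece hQ (Or.inl hr)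
  | prod P R p r hp hr ih ih' =>
    rw [dim_prod]
    exact ih.tens ih'

/-- A product of two even parts is a direct summand of an even part. -/
lemma epart_prod (hQ : ∀ V q, Q V q → IsBlock H Q V q) {n m : ℕ} {p : C.A (P.prod P)}
    {r : C.A (R.prod R)} (hp : EPart Q n P p) (hr : EPart Q m R r) :
    ∃ (R' : 𝒱.Obj) (r' : C.A (R'.prod R')), EPart Q (n + m) R' r' ∧
      IsSummand (TH133.tens C p r) r' := by
  induction hr with
  | block T r hr he =>
    have h := isPure_part hQ (Part.prod n P T p r hp.part (Or.inl hr))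
    exact ⟨_, _, EPart.prod n P T p r hp hr he, IsSummand.refl h.deg h.idem⟩
  | prod m R T r t hr ht he ih =>
    obtain ⟨R', r', hR', hs⟩ := ih
    have h1 := isPure_part hQ hp.part
    have h2 := isPure_part hQ hr.part
    have h3 := isPure_piece hQ (Or.inl ht)
    refine ⟨_, _, by rw [← add_assoc]; exact EPart.prod (n + m) R' T r' t hR' ht he, ?_⟩
    refine (IsSummand.assoc h1.deg h2.deg h3.deg h1.idem h2.idem h3.idem).trans ?_
      (hs.tens h3.deg h3.idem)
    rw [tens_comp'', tens_comp'', h1.idem, h2.idem, h3.idem]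

lemma sys_epart (hQ : ∀ V q, Q V q → IsBlock H Q V q) : Sys H (EPart Q) where
  pos := fun h => one_le_part hQ h.part
  pure := fun h => isPure_part hQ h.part
  prod := epart_prod hQ

omit hC hH in
/-- The vanishing of the homologically trivial cycles in the middle codimension. -/
def EHom (H : WeilTheoryData.{u, v, w} C K) (Q : ∀ V : 𝒱.Obj, C.A (V.prod V) → Prop)
    (D : ℕ∞) : Prop :=
  ∀ j : ℕ, (j : ℕ∞) ≤ D → ∀ (n : ℕ) (P : 𝒱.Obj) (p : C.A (P.prod P)), EPart Q n P p →
    n = 2 * j → ∀ z : C.A P, C.Deg j z → C.act p z = z → H.cl z = 0 → z = 0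

omit hC hH in
lemma block_of_even {r : C.A (T.prod T)} (h : IsPiece Q T r) (he : T.dim % 2 = 0) : Q T r := by
  rcases h with h | ⟨o, hT, -, -, -⟩
  · exact h
  · omega

/-- The vanishing properties of the pieces. -/
theorem van_piece (hQ : ∀ V q, Q V q → IsBlock H Q V q)
    (hhom : EHom H Q D) : ∀ (m : ℕ) (T : 𝒱.Obj) (r : C.A (T.prod T)), IsPiece Q T r →
      T.dim = m → Hx18.MD.Van H D T.dim T r := by
  intro m
  induction m with
  | zero =>
    intro T r h hT
    have := one_le_piece hQ h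
    omega
  | succ m ih =>
    intro T r h hT
    refine ⟨?_, fun j hj hjn z hz hpz hcl => hhom j hj T.dim T r
      (EPart.block T r (block_of_even h (by omega)) (by omega)) hjn.symm z hz hpz hcl⟩
    intro j hj hjn z hz hpz
    rcases h with h | ⟨o, hT1, ho, hd, rfl⟩
    · have htwo := (hQ _ _ h).two_le
      have hV' : ∀ (T' : 𝒱.Obj) (r : C.A (T'.prod T')), IsPiece Q T' r → T'.dim + 1 = T.dim →
          Hx18.MD.Van H D T'.dim T' r := fun T' r' h' hd' => ih T' r' h' (by omega)
      exact Hx18.MD.block_single hQ h hV' hj hz hpz hjn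
    · have hp := isPure_curve (H := H) hT1 ho (degreeOne_iff.1 hd)
      obtain rfl : j = 0 := by omega
      exact zero_codim one_ne_zero hp (by exact_mod_cast hz) hpz

/-- The vanishing properties of the products of an even part with a piece. -/
theorem van_prod (hfib : FibreProperty C) (hQ : ∀ V q, Q V q → IsBlock H Q V q)
    (hhom : EHom H Q D) {n : ℕ} {p : C.A (P.prod P)}
    (hp : EPart Q n P p) (hV : Hx18.MD.Van H D n P p) :
    ∀ (m : ℕ) (T : 𝒱.Obj) (r : C.A (T.prod T)), IsPiece Q T r → T.dim = m →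
      Hx18.MD.Van H D (n + T.dim) (P.prod T) (TH133.tens C p r) := by
  have hpp := isPure_part hQ hp.part
  have hn := one_le_part hQ hp.part
  have heven := hp.even
  intro m
  induction m with
  | zero =>
    intro T r h hT
    have := one_le_piece hQ h
    omega
  | succ m ih =>
    intro T r h hT
    have hpos := one_le_piece hQ h
    refine ⟨?_, fun j hj hjn z hz hpz hcl => hhom j hj _ _ _
      (EPart.prod n P T p r hp (block_of_even h (by omega)) (by omega)) hjn.symm z hz hpz hcl⟩
    intro j hj hjn z hz hpz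
    rcases h with h | ⟨o, hT1, ho, hd, rfl⟩
    · have hV' : ∀ (T' : 𝒱.Obj) (r : C.A (T'.prod T')), IsPiece Q T' r → T'.dim + 1 = T.dim →
          Hx18.MD.Van H D (n + T'.dim) (P.prod T') (TH133.tens C p r) :=
        fun T' r' h' hd' => ih T' r' h' (by omega)
      exact Hx18.MD.block_step hQ hpp h hV hV' hj hz hpz hjn
    · have hd' := degreeOne_iff.1 hd
      rw [hT1] at hjn
      exact Hx18.MD.curve_step hfib hpp hT1 ho hd' hV hj hz hpz hjn

/-- **The vanishing theorem.** -/
theorem van_epart (hfib : FibreProperty C) (hQ : ∀ V q, Q V q → IsBlock H Q V q)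
    (hhom : EHom H Q D) {n : ℕ} {p : C.A (P.prod P)} (h : EPart Q n P p) :
    Hx18.MD.Van H D n P p := by
  induction h with
  | block T r hr _ => exact van_piece hQ hhom T.dim T r (Or.inl hr) rfl
  | prod n P T p r hp hr _ ih => exact van_prod hfib hQ hhom hp ih T.dim T r (Or.inl hr) rfl

omit hH in
/-- The diagonal of a block. -/
lemma thr_block (hQ : ∀ V q, Q V q → IsBlock H Q V q) {q : C.A (V.prod V)} (hq : Q V q)
    (he : V.dim % 2 = 0) : dg C V ∈ thr C (EPart Q) V.dim V := by
  have hb := hQ V q hq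
  have hpart : EPart Q V.dim V q := EPart.block V q hq he
  have e0 : dg C V = (dg C V - q) + q := by abel
  rw [e0]
  refine Submodule.add_mem _ ?_ (mem_thr_self hpart)
  refine (Submodule.span_le.2 ?_ : _ ≤ thr C (EPart Q) V.dim V) hb.diagonal
  rintro c ⟨l, n, a, b, hln, ha, hb, rfl⟩
  exact Submodule.subset_span (Or.inr ⟨n, a, b, mem_of_eq ha (by push_cast [← hln]; ring),
    hb, rfl⟩)

/-- **The decomposition of the diagonal.** -/
theorem thr_product (hQ : ∀ V q, Q V q → IsBlock H Q V q) (h : IsEvenProduct Q P) :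
    dg C P ∈ thr C (EPart Q) P.dim P := by
  induction h with
  | block V q h he => exact thr_block hQ h he
  | prod P T hP hT ih ih' =>
    have h1 := thr_tens (sys_epart hQ) ih ih'
    rw [tens_dg] at h1
    rwa [dim_prod]

theorem thr_generated (hQ : ∀ V q, Q V q → IsBlock H Q V q) {D : ℕ∞}
    (h : EvenGenerated C Q D X) : dg C X ∈ thr C (EPart Q) D X :=
  thr_summand (S := IsEvenProduct Q) (fun P hP => thr_product hQ hP) h

omit hH in
lemma generated_self {d : ℕ∞} (h : IsEvenProduct Q P) (hd : (P.dim : ℕ∞) ≤ d) :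
    EvenGenerated C Q d P :=
  ⟨P, ⟨h, hd⟩, dg C P, dg C P, dg_mem C P, dg_mem C P, comp_dg C _⟩

/-- **Sufficiency.** -/
theorem exists_of (hN : IsAJKernel H N) (hQ : ∀ V q, Q V q → IsBlock H Q V q)
    (hfib : FibreTheorem C) (h : ∀ j : ℕ, 2 ≤ j → (j : ℕ∞) ≤ E → MiddleInjective H Q j)
    (hb : ∀ n i : ℕ, (n : ℕ∞) ≤ D → (i : ℕ∞) ≤ J → i ≤ n → (i : ℕ∞) ≤ E)
    (hb' : ∀ m n t l ν : ℕ, (m : ℕ∞) ≤ D → (n : ℕ∞) ≤ D → (t : ℕ∞) ≤ J → (l : ℕ∞) ≤ J → 2 ≤ ν →
      2 * l = n + ν → m + ν ≤ 2 * t → t ≤ m → ((m + l - t : ℕ) : ℕ∞) ≤ E) :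
    EvenFiltrationExists H Q N D J := by
  have hN' := kernel_of hN
  have hhom : EHom H Q E := by
    intro j hj n P p hp hn z hz hpz hcl
    obtain ⟨h1, h2⟩ := primitive_of_epart hp
    by_cases hj2 : 2 ≤ j
    · exact h j hj2 hj P p h1 (by omega) z hz hcl hpz
    · have hpure := isPure_part hQ hp.part
      by_cases hj1 : j = 1
      · subst hj1
        apply hN'.abel P z
        rw [← hpz]
        refine hN'.kills P P 1 1 p (mem_of_eq hpure.deg (by ring)) ?_ z hz hcl
        intro a ha
        exact hpure.kills _ (by omega) a ha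
      · have := one_le_part hQ hp.part
        omega
  have hyp : Hyp H (EPart Q) N.N D J E :=
    { kernel := hN'
      sys := sys_epart hQ
      van := fun n P p hp => by
        have h1 := van_epart hfib hQ hhom hp
        exact ⟨h1.low, h1.mid, fun j _ hjn => by
          have := hp.even
          omega⟩
      bound := hb
      bound' := hb' }
  refine ⟨filF H (EPart Q) D J, ?_⟩
  have h1 := hyp.isBB (S := EvenGenerated C Q D) fun X hX => thr_generated hQ hX
  exact
    { zero := h1.zero
      one := h1.one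
      two := fun X hX j hj z => by
        have := h1.two X hX j hj
        exact (Submodule.ext_iff.1 this) z
      top := fun X hX j hj z hz => (Submodule.eq_bot_iff _).1 (h1.top X hX j hj) z hz
      stable := h1.stable
      shift := h1.shift }

/-- **Necessity.** -/
theorem injective_of (hQ : ∀ V q, Q V q → IsBlock H Q V q) (h : EvenFiltrationExists H Q N D J)
    {j : ℕ} (hjJ : (j : ℕ∞) ≤ J) (hjD : ((2 * j : ℕ) : ℕ∞) ≤ D) :
    MiddleInjective H Q j := by
  obtain ⟨F, hF⟩ := h
  intro P p hp hdim z hz hcl hpz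
  have hpure := pure_of_primitive hQ hp
  rw [hdim] at hpure
  have hgen : EvenGenerated C Q D P :=
    generated_self (product_of_primitive hp) (by rw [hdim]; exact hjD)
  refine Hx18.CI.bb_zero (upTo_of hF) hgen hpure hjJ (ν := 1) (by omega) ?_ hpz
  exact (hF.one P hgen j hjJ z).2 ⟨hz, hcl⟩

/-- **Uniqueness.** -/
theorem unique_of (hQ : ∀ V q, Q V q → IsBlock H Q V q) {F F' : Filtration C}
    (hF : IsBB H N J (EvenGenerated C Q D) F) (hF' : IsBB H N J (EvenGenerated C Q D) F')
    (hX : EvenGenerated C Q D X) {j : ℕ} (hj : (j : ℕ∞) ≤ J) (ν : ℕ) (z : C.A X) :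
    F.Mem j ν z ↔ F'.Mem j ν z := by
  have hP : ∀ (n : ℕ) (P : 𝒱.Obj) (p : C.A (P.prod P)), EPart Q n P p → (n : ℕ∞) ≤ D →
      EvenGenerated C Q D P := by
    intro n P p hp hn
    obtain ⟨h1, h2⟩ := primitive_of_epart hp
    refine generated_self (product_of_primitive h1) ?_
    rw [h2]
    exact hn
  have hdg := thr_generated hQ hX
  have h1 := bb_eq_fil (upTo_of hF) (sys_epart hQ) hP hX hdg hj ν
  have h2 := bb_eq_fil (upTo_of hF') (sys_epart hQ) hP hX hdg hj ν
  rw [Filtration.Mem, Filtration.Mem, h1, h2]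

omit hC hH in
/-- **Main theorem.** -/
theorem main (C : TheoryData.{u, v, 0} 𝒱 ℚ) [IsChowProj C] {K : Type w} [Field K]
    (H : WeilTheoryData.{u, v, w} C K) [IsWeilProj H] (N : Family C) (hN : IsAJKernel H N)
    (Q : ∀ V : 𝒱.Obj, C.A (V.prod V) → Prop) (hQ : ∀ V q, Q V q → IsBlock H Q V q)
    (hfib : FibreTheorem C) :
    (EvenFiltrationExists H Q N ⊤ ⊤ ↔ ∀ j : ℕ, 2 ≤ j → MiddleInjective H Q j) ∧
    (∀ J : ℕ, ((∀ j : ℕ, 2 ≤ j → j ≤ 2 * J - 2 → MiddleInjective H Q j) →
        EvenFiltrationExists H Q N ⊤ J) ∧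
      (EvenFiltrationExists H Q N ⊤ J → ∀ j : ℕ, 2 ≤ j → j ≤ J → MiddleInjective H Q j)) ∧
    (∀ d : ℕ, ((∀ j : ℕ, 2 ≤ j → j ≤ d → MiddleInjective H Q j) →
        EvenFiltrationExists H Q N d ⊤) ∧
      (EvenFiltrationExists H Q N d ⊤ → ∀ j : ℕ, 2 ≤ j → 2 * j ≤ d → MiddleInjective H Q j)) ∧
    (∀ (d J : ℕ∞) (F F' : Filtration C), IsBB H N J (EvenGenerated C Q d) F →
      IsBB H N J (EvenGenerated C Q d) F' → ∀ X, EvenGenerated C Q d X → ∀ j : ℕ, (j : ℕ∞) ≤ J →
        ∀ (ν : ℕ) (z : C.A X), F.Mem j ν z ↔ F'.Mem j ν z) := by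
  refine ⟨⟨?_, ?_⟩, ?_, ?_, ?_⟩
  · intro h j hj
    exact injective_of hQ h le_top le_top
  · intro h
    exact exists_of (E := ⊤) hN hQ hfib (fun j hj _ => h j hj) (fun _ _ _ _ _ => le_top)
      fun _ _ _ _ _ _ _ _ _ _ _ _ _ => le_top
  · intro J
    constructor
    · intro h
      refine exists_of (E := ((max J (2 * J - 2) : ℕ) : ℕ∞)) hN hQ hfib ?_ ?_ ?_
      · intro j hj hjE
        have h1 : j ≤ max J (2 * J - 2) := by exact_mod_cast hjE
        exact h j hj (by omega)
      · intro n i _ hi _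
        have h1 : i ≤ J := by exact_mod_cast hi
        exact_mod_cast (by omega : i ≤ max J (2 * J - 2))
      · intro m n t l ν _ _ ht hl hν h1 h2 h3
        have h4 : t ≤ J := by exact_mod_cast ht
        have h5 : l ≤ J := by exact_mod_cast hl
        exact_mod_cast (by omega : m + l - t ≤ max J (2 * J - 2))
    · intro h j hj hjJ
      exact injective_of hQ h (by exact_mod_cast hjJ) le_top
  · intro d
    constructor
    · intro h
      refine exists_of (E := (d : ℕ∞)) hN hQ hfib ?_ ?_ ?_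
      · intro j hj hjE
        exact h j hj (by exact_mod_cast hjE)
      · intro n i hn _ hi
        have h1 : n ≤ d := by exact_mod_cast hn
        exact_mod_cast (by omega : i ≤ d)
      · intro m n t l ν hm hn _ _ hν h1 h2 h3
        have h4 : m ≤ d := by exact_mod_cast hm
        have h5 : n ≤ d := by exact_mod_cast hn
        exact_mod_cast (by omega : m + l - t ≤ d)
    · intro h j hj hjd
      exact injective_of hQ h le_top (by exact_mod_cast hjd)
  · intro d J F F' hF hF' X hX j hj ν z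
    exact unique_of hQ hF hF' hX hj ν z

end Pool.Agent.Helper13EV
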