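import Pool.Agent.Hx18.CI.Stmt

/-!
# Motives generated by even-dimensional complete intersections: definitions
-/

set_option autoImplicit false

open CategoryTheory AlgebraicGeometry

universe u v w

namespace Pool.Agent.Helper13EV

open Pool.Agent.H914 Pool.Agent.H914.VarClass Pool.Agent.H914.VarClass.Obj Pool.Agent.W492.BB
  Pool.Agent.W550.Corr Pool.Agent.TH133 Pool.Agent.Hx18.BB Pool.Agent.Hx18.CI

noncomputable section

variable {k : Type u} [Field k] {𝒱 : VarClass k}

section basic

variable {C : TheoryData.{u, v, 0} 𝒱 ℚ}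

/-- A product of varieties `V` of even dimension such that `Q V q` for some `q`. -/
inductive IsEvenProduct (Q : ∀ V : 𝒱.Obj, C.A (V.prod V) → Prop) : 𝒱.Obj → Prop
  | block (V : 𝒱.Obj) (q : C.A (V.prod V)) (h : Q V q) (he : V.dim % 2 = 0) : IsEvenProduct Q V
  | prod (P R : 𝒱.Obj) (hP : IsEvenProduct Q P) (hR : IsEvenProduct Q R) :
      IsEvenProduct Q (P.prod R)

/-- `IsEvenPrimitive Q P p`: the motive `(P, p)` is a product, in any order, of motives `(V, q)` with
`Q V q` and `V` of even dimension. -/
inductive IsEvenPrimitive (Q : ∀ V : 𝒱.Obj, C.A (V.prod V) → Prop) :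
    (P : 𝒱.Obj) → C.A (P.prod P) → Prop
  | block (V : 𝒱.Obj) (q : C.A (V.prod V)) (h : Q V q) (he : V.dim % 2 = 0) :
      IsEvenPrimitive Q V q
  | prod (P R : 𝒱.Obj) (p : C.A (P.prod P)) (r : C.A (R.prod R)) (hp : IsEvenPrimitive Q P p)
      (hr : IsEvenPrimitive Q R r) : IsEvenPrimitive Q (P.prod R) (boxCorr p r)

/-- The varieties whose motives are direct summands of motives of products, of dimension at most
`d`, of varieties `V` of even dimension with `Q V q` for some `q`. -/
def EvenGenerated (C : TheoryData.{u, v, 0} 𝒱 ℚ) (Q : ∀ V : 𝒱.Obj, C.A (V.prod V) → Prop) (d : ℕ∞)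
    (X : 𝒱.Obj) : Prop :=
  IsSummandOf C (fun P => IsEvenProduct Q P ∧ (P.dim : ℕ∞) ≤ d) X

end basic

section weil

variable {C : TheoryData.{u, v, 0} 𝒱 ℚ} {K : Type w} [Field K] (H : WeilTheoryData.{u, v, w} C K)

/-- The vanishing of the homologically trivial cycles of codimension `j` on the primitive motives
`(V_1, q_1) ⊗ ⋯ ⊗ (V_r, q_r)` of dimension `2 j`, with all `V_i` of even dimension. -/
def MiddleInjective (Q : ∀ V : 𝒱.Obj, C.A (V.prod V) → Prop) (j : ℕ) : Prop :=
  ∀ (P : 𝒱.Obj) (p : C.A (P.prod P)), IsEvenPrimitive Q P p → P.dim = 2 * j →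
    ∀ z : C.A P, C.Deg j z → HomTrivial H z → C.act p z = z → z = 0

/-- A Bloch-Beilinson filtration exists on the Chow groups of codimension at most `J` of the
varieties whose motives are direct summands of motives of products, of dimension at most `d`, of
varieties `V` of even dimension with `Q V q` for some `q`. -/
def EvenFiltrationExists (Q : ∀ V : 𝒱.Obj, C.A (V.prod V) → Prop) (N : Family C) (d J : ℕ∞) :
    Prop :=
  ∃ F : Filtration C, IsBB H N J (EvenGenerated C Q d) F

end weil

end

end Pool.Agent.Helper13EV
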